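import Pool.Agent.AT12.Stmts3

/-!
# Squad AT12, row BSF: Bessel's inequality for orthogonal vectors which agree on a set
-/

open scoped BigOperators

set_option autoImplicit false

noncomputable section

namespace Pool.Agent.PP.T12.H86

open Pool.Agent.Helper51_AWC Pool.Agent.Helper79_WRA Pool.Agent.PP Pool.Agent.PP.KF
open Pool.Agent.PP.K9 Pool.Agent.PP.K9.H97 Pool.Agent.PP.H75 Pool.Agent.PP.T3 Pool.Agent.PP.T2
open Pool.Agent.PP.T8 Pool.Agent.PP.T12

theorem bsf : BsfStmt := by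
  classical
  intro G _ _ R hR n v c hn h0 hc hag
  have _i : Fintype G := Fintype.ofFinite G
  have hA : (Irr G).Finite := irr_finite'
  have hB : R.Finite := hA.subset hR
  have hsub : hB.toFinset ⊆ hA.toFinset := by
    intro χ hχ
    rw [Set.Finite.mem_toFinset] at hχ ⊢
    exact hR hχ
  have conv : ∀ f : (G → ℂ) → ℂ, ∑ᶠ χ ∈ Irr G, f χ = ∑ χ ∈ hA.toFinset, f χ := fun f =>
    finsum_mem_eq_finite_toFinset_sum f hA
  rw [finsum_mem_eq_finite_toFinset_sum _ hB]
  set W : (G → ℂ) → ℂ := fun χ => ∑ i ∈ Finset.range n, v i χ with hW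
  have h1 : ∑ χ ∈ hA.toFinset, W χ * starRingEnd ℂ (W χ) = (n : ℂ) * c := by
    have e1 : ∀ χ, W χ * starRingEnd ℂ (W χ) =
        ∑ i ∈ Finset.range n, ∑ j ∈ Finset.range n, v i χ * starRingEnd ℂ (v j χ) := by
      intro χ
      rw [hW]
      simp only [map_sum]
      rw [Finset.sum_mul_sum]
    rw [Finset.sum_congr rfl fun χ _ => e1 χ, Finset.sum_comm]
    have e2 : ∀ i ∈ Finset.range n, ∑ χ ∈ hA.toFinset, ∑ j ∈ Finset.range n,
        v i χ * starRingEnd ℂ (v j χ) = (c : ℂ) := by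
      intro i hi
      rw [Finset.sum_comm, Finset.sum_eq_single i]
      · rw [← conv]
        exact hc i (Finset.mem_range.1 hi)
      · intro j hj hji
        rw [← conv]
        exact h0 i (Finset.mem_range.1 hi) j (Finset.mem_range.1 hj) (Ne.symm hji)
      · intro h
        exact absurd hi h
    rw [Finset.sum_congr rfl e2, Finset.sum_const, Finset.card_range, nsmul_eq_mul]
  have h2 : ∑ χ ∈ hA.toFinset, Complex.normSq (W χ) = n * c := by
    have : ((∑ χ ∈ hA.toFinset, Complex.normSq (W χ) : ℝ) : ℂ) = ((n * c : ℝ) : ℂ) := by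
      rw [Complex.ofReal_sum, Complex.ofReal_mul, Complex.ofReal_natCast, ← h1]
      exact Finset.sum_congr rfl fun χ _ => (Complex.mul_conj (W χ)).symm
    exact_mod_cast this
  have h3 : ∑ χ ∈ hB.toFinset, Complex.normSq (W χ) ≤ n * c := by
    rw [← h2]
    exact Finset.sum_le_sum_of_subset_of_nonneg hsub fun χ _ _ => Complex.normSq_nonneg _
  have h4 : ∀ χ ∈ hB.toFinset, Complex.normSq (W χ) = (n : ℝ) ^ 2 * Complex.normSq (v 0 χ) := by
    intro χ hχ
    rw [Set.Finite.mem_toFinset] at hχ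
    have e : W χ = n * v 0 χ := by
      rw [hW]
      simp only []
      rw [Finset.sum_congr rfl fun i hi => hag i (Finset.mem_range.1 hi) χ hχ, Finset.sum_const,
        Finset.card_range, nsmul_eq_mul]
    rw [e, Complex.normSq_mul, Complex.normSq_natCast, sq]
  rw [Finset.sum_congr rfl h4, ← Finset.mul_sum] at h3
  have hn' : (0 : ℝ) < n := by exact_mod_cast hn
  have h5 : (n : ℝ) * (n * ∑ χ ∈ hB.toFinset, Complex.normSq (v 0 χ)) ≤ n * c := by
    calc (n : ℝ) * (n * ∑ χ ∈ hB.toFinset, Complex.normSq (v 0 χ))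
        = (n : ℝ) ^ 2 * ∑ χ ∈ hB.toFinset, Complex.normSq (v 0 χ) := by ring
      _ ≤ n * c := h3
  exact le_of_mul_le_mul_left h5 hn'

end Pool.Agent.PP.T12.H86
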