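import Pool.Agent.AT12.Stmts3
import Pool.Agent.Helper77_AT8.LT8

/-!
# Squad AT12, row LBC: the bound for the number of modular characters
-/

open scoped BigOperators

set_option autoImplicit false

noncomputable section

namespace Pool.Agent.PP.T12.H86

open Pool.Agent.Helper51_AWC Pool.Agent.Helper79_WRA Pool.Agent.PP Pool.Agent.PP.KF
open Pool.Agent.PP.K9 Pool.Agent.PP.K9.H97 Pool.Agent.PP.H75 Pool.Agent.PP.T3 Pool.Agent.PP.T2
open Pool.Agent.PP.T8 Pool.Agent.PP.T12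

attribute [local instance] Ideal.Quotient.field

theorem lbc (cst : T12.CstStmt) (syx : T12.SyxStmt) (co2 : T12.Co2Stmt) (crg : T12.CrgStmt)
    (lbz : T12.LbzStmt) (fx1 : T12.Fx1Stmt) (lb8 : T8.Lb8Stmt) (xct : T8.XctStmt)
    (dat : T8.DatStmt) (pr2 : T2.Pr2Stmt) : T12.LbcStmt := by
  intro ℓ _ M _ hM hl2 G _ _ e V γ ld hexp hcard hgen
  have hF : GoodF ℓ (FF M) := H50.fld ℓ Fact.out M hM
  have hlp : ℓ.Prime := Fact.out
  have hix : ¬ ℓ ∣ ix V γ :=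
    K9.H34.inx ℓ M hM G e ld.blk V ld.tp ld.ab γ ld.gam.supp ld.gam.blk ld.und
  rcases cst ℓ (FF M) hF G e V γ ld hix hexp hcard hgen with ⟨y, hy⟩ | ⟨y, w, m, hcs⟩
  · obtain ⟨x0, y0, hV⟩ := hgen
    have h1 : Nat.card V ≤ ℓ * ℓ * Nat.card (Uw ℓ V) := T8.H77.card_two ld.ab hV hlp.pos
    have h2 := xct ℓ (FF M) hF G e V γ ld hix 2 1 one_pos one_le_two hexp y hy
    rw [pow_one] at h2
    refine lb8 ℓ M hM hl2 G e V γ ld 2 1 one_pos one_le_two hexp ⟨y, hy⟩ ?_ ?_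
    · calc ix V γ * Nat.card V ≤ ix V γ * (ℓ * ℓ * Nat.card (Uw ℓ V)) :=
            Nat.mul_le_mul_left _ h1
        _ = ℓ ^ (2 * 1) * (ix V γ * Nat.card (Uw ℓ V)) := by ring
        _ ≤ ℓ ^ (2 * 1) * {u | Rg V γ u}.ncard := Nat.mul_le_mul_left _ h2
    · rw [pow_one]
      calc Nat.card V ≤ ℓ * ℓ * Nat.card (Uw ℓ V) := h1
        _ = ℓ ^ (2 + 1 - 1) * Nat.card (Uw ℓ V) := by norm_num [sq]
  · obtain ⟨N, hN⟩ := pr2 ℓ hl2 G
    obtain ⟨b, d, c, ε, hdat⟩ := dat ℓ M hM G e V γ ld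
    obtain ⟨H, iH, fH, β, π, K, g, hsy⟩ := syx ℓ M hM hl2 G e V γ ld y w m hcs
    have hl1 : ¬ ℓ ∣ 1 := fun h => hlp.one_lt.ne' (Nat.dvd_one.1 h)
    have hreg := (crg ℓ (FF M) hF hl2 G e V γ ld y w m hcs).1 1 1 hl1 hl1
    obtain ⟨θ, hθ, hcoh⟩ := co2 ℓ M hM hl2 G H N hN e V γ b d c ε hdat ⟨_, hreg⟩ 2 y β π m K g hsy
    have hsg : Sg M ℓ N e V γ b d c ε y w β π m K g θ :=
      { odd := hl2, exp := hexp, gs := hN, dat := hdat, cs := hcs, sy := hsy, sgn := hθ,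
        coh := hcoh }
    have h1 := lbz ℓ M hM G H N e V γ b d c ε y w β π m K g θ hsg
    have hV : V ≠ ⊥ := by
      rintro rfl
      rw [Subgroup.card_bot] at hcard
      exact (Nat.one_lt_pow (by norm_num) hlp.one_lt).ne hcard
    have h2 := fx1 ℓ M hM G N hN e V γ ld hV
    omega

end Pool.Agent.PP.T12.H86
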